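import Pool.Agent.Helper60.MEI.R8
import Pool.Agent.Helper90.R8T.WL

/-!
# Project MEI (M2), w-term: tables of rule R8, the measure part

The function of a tree is measurable, nonnegative, bounded, and its integral with the weight `M3`
is at most the weight of the tree.
-/

set_option autoImplicit false

namespace Helper45.R8I

open Set MeasureTheory
open Helper33.MEI (Dl M3 mt mt_pos mt_cont)
open Helper60.R7 (U U_pos In mtx rc rc_meas mem_rc mt_mtx)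
open Helper60.R8

/-! ### The bilinear function -/

theorem pos_cont (a0 a1 : ℕ) : Continuous (pos a0 a1) := by
  unfold pos
  exact (continuous_id.sub continuous_const).div_const _

theorem Bf_cont (rows : List Row) (lam : ℕ → ℝ) (x0 x1 y0 y1 : ℕ) (c : Lf) :
    Continuous (Bf rows lam x0 x1 y0 y1 c) := by
  have h1 : Continuous fun t : ℝ × ℝ => pos x0 x1 t.1 := (pos_cont x0 x1).comp continuous_fst
  have h2 : Continuous fun t : ℝ × ℝ => pos y0 y1 t.2 := (pos_cont y0 y1).comp continuous_snd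
  have e1 : Continuous fun t : ℝ × ℝ => 1 - pos x0 x1 t.1 := continuous_const.sub h1
  have e2 : Continuous fun t : ℝ × ℝ => 1 - pos y0 y1 t.2 := continuous_const.sub h2
  show Continuous fun t : ℝ × ℝ => _
  unfold Bf bil
  exact ((((e1.mul e2).mul continuous_const).add ((e1.mul h2).mul continuous_const)).add
    ((h1.mul e2).mul continuous_const)).add ((h1.mul h2).mul continuous_const)

theorem pos_mem {a0 a1 : ℕ} {z : ℝ} (h0 : (a0 : ℝ) / U ≤ z) (h1 : z ≤ (a1 : ℝ) / U) :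
    0 ≤ pos a0 a1 z ∧ pos a0 a1 z ≤ 1 := by
  unfold pos
  exact ⟨div_nonneg (by linarith) (by linarith), div_le_one_of_le₀ (by linarith) (by linarith)⟩

theorem sO_nonneg (rows : List Row) {lam : ℕ → ℝ} (h0 : ∀ i, 0 ≤ lam i) (Os : List ℕ) :
    0 ≤ sO rows lam Os :=
  Finset.sum_nonneg fun i _ => mul_nonneg (h0 i) (div_nonneg (Nat.cast_nonneg _) U_pos.le)

theorem bil_nonneg {p q o1 o2 o3 o4 : ℝ} (hp0 : 0 ≤ p) (hp1 : p ≤ 1) (hq0 : 0 ≤ q) (hq1 : q ≤ 1)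
    (h1 : 0 ≤ o1) (h2 : 0 ≤ o2) (h3 : 0 ≤ o3) (h4 : 0 ≤ o4) : 0 ≤ bil p q o1 o2 o3 o4 := by
  have p1 : 0 ≤ 1 - p := by linarith
  have q1 : 0 ≤ 1 - q := by linarith
  unfold bil
  positivity

theorem bil_le {p q o1 o2 o3 o4 : ℝ} (hp0 : 0 ≤ p) (hp1 : p ≤ 1) (hq0 : 0 ≤ q) (hq1 : q ≤ 1)
    (h1 : 0 ≤ o1) (h2 : 0 ≤ o2) (h3 : 0 ≤ o3) (h4 : 0 ≤ o4) :
    bil p q o1 o2 o3 o4 ≤ o1 + o2 + o3 + o4 := by
  have p1 : 0 ≤ 1 - p := by linarith
  have q1 : 0 ≤ 1 - q := by linarith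
  have w1 : (1 - p) * (1 - q) ≤ 1 := mul_le_one₀ (by linarith) q1 (by linarith)
  have w2 : (1 - p) * q ≤ 1 := mul_le_one₀ (by linarith) hq0 (by linarith)
  have w3 : p * (1 - q) ≤ 1 := mul_le_one₀ (by linarith) q1 (by linarith)
  have w4 : p * q ≤ 1 := mul_le_one₀ (by linarith) hq0 (by linarith)
  have k1 := mul_le_mul_of_nonneg_right w1 h1
  have k2 := mul_le_mul_of_nonneg_right w2 h2
  have k3 := mul_le_mul_of_nonneg_right w3 h3
  have k4 := mul_le_mul_of_nonneg_right w4 h4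
  unfold bil
  linarith

theorem Bf_nonneg (rows : List Row) {lam : ℕ → ℝ} (h0 : ∀ i, 0 ≤ lam i) {x0 x1 y0 y1 : ℕ} (c : Lf)
    {t : ℝ × ℝ} (ht : t ∈ rc x0 x1 y0 y1) : 0 ≤ Bf rows lam x0 x1 y0 y1 c t := by
  obtain ⟨i1, i2, i3, i4⟩ := mem_rc.1 ht
  obtain ⟨p0, p1⟩ := pos_mem i1 i2
  obtain ⟨q0, q1⟩ := pos_mem i3 i4
  exact bil_nonneg p0 p1 q0 q1 (sO_nonneg _ h0 _) (sO_nonneg _ h0 _) (sO_nonneg _ h0 _)
    (sO_nonneg _ h0 _)

theorem Bf_le (rows : List Row) {lam : ℕ → ℝ} (h0 : ∀ i, 0 ≤ lam i) {x0 x1 y0 y1 : ℕ} (c : Lf)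
    {t : ℝ × ℝ} (ht : t ∈ rc x0 x1 y0 y1) : Bf rows lam x0 x1 y0 y1 c t ≤
      sO rows lam c.o00 + sO rows lam c.o01 + sO rows lam c.o10 + sO rows lam c.o11 := by
  obtain ⟨i1, i2, i3, i4⟩ := mem_rc.1 ht
  obtain ⟨p0, p1⟩ := pos_mem i1 i2
  obtain ⟨q0, q1⟩ := pos_mem i3 i4
  exact bil_le p0 p1 q0 q1 (sO_nonneg _ h0 _) (sO_nonneg _ h0 _) (sO_nonneg _ h0 _)
    (sO_nonneg _ h0 _)

/-! ### The function of a tree -/

theorem val_meas (rows : List Row) (lam : ℕ → ℝ) : ∀ (T : Tr) (x0 x1 y0 y1 : ℕ),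
    Measurable (T.val rows lam x0 x1 y0 y1)
  | .lf c, x0, x1, y0, y1 =>
    ((Bf_cont rows lam x0 x1 y0 y1 c).measurable.div mt_cont.measurable.sqrt).indicator
      (rc_meas x0 x1 y0 y1)
  | .em, _, _, _, _ => measurable_const
  | .tp, _, _, _, _ => measurable_const
  | .sx a l r, x0, x1, y0, y1 =>
    (val_meas rows lam l x0 a y0 y1).add (val_meas rows lam r a x1 y0 y1)
  | .sy b l r, x0, x1, y0, y1 =>
    (val_meas rows lam l x0 x1 y0 b).add (val_meas rows lam r x0 x1 b y1)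

theorem val_nonneg (rows : List Row) {lam : ℕ → ℝ} (h0 : ∀ i, 0 ≤ lam i) :
    ∀ (T : Tr) (x0 x1 y0 y1 : ℕ) (t : ℝ × ℝ), 0 ≤ T.val rows lam x0 x1 y0 y1 t
  | .lf c, _, _, _, _, t =>
    indicator_nonneg (fun _ ht => div_nonneg (Bf_nonneg rows h0 c ht) (Real.sqrt_nonneg _)) t
  | .em, _, _, _, _, _ => le_rfl
  | .tp, _, _, _, _, _ => le_rfl
  | .sx a l r, x0, x1, y0, y1, t =>
    add_nonneg (val_nonneg rows h0 l x0 a y0 y1 t) (val_nonneg rows h0 r a x1 y0 y1 t)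
  | .sy b l r, x0, x1, y0, y1, t =>
    add_nonneg (val_nonneg rows h0 l x0 x1 y0 b t) (val_nonneg rows h0 r x0 x1 b y1 t)

theorem val_bd (rows : List Row) {lam : ℕ → ℝ} (h0 : ∀ i, 0 ≤ lam i) :
    ∀ (T : Tr) (x0 x1 y0 y1 : ℕ), ∃ C : ℝ, ∀ t, T.val rows lam x0 x1 y0 y1 t ≤ C
  | .lf c, x0, x1, y0, y1 => ⟨(sO rows lam c.o00 + sO rows lam c.o01 + sO rows lam c.o10 +
      sO rows lam c.o11) * 1.25, fun t => by
      have hS : 0 ≤ sO rows lam c.o00 + sO rows lam c.o01 + sO rows lam c.o10 +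
          sO rows lam c.o11 := by
        have e1 := sO_nonneg rows h0 c.o00
        have e2 := sO_nonneg rows h0 c.o01
        have e3 := sO_nonneg rows h0 c.o10
        have e4 := sO_nonneg rows h0 c.o11
        linarith
      show (rc x0 x1 y0 y1).indicator (fun t => Bf rows lam x0 x1 y0 y1 c t / √(mt t)) t ≤ _
      by_cases ht : t ∈ rc x0 x1 y0 y1
      · rw [indicator_of_mem ht, div_eq_mul_inv]
        exact mul_le_mul (Bf_le rows h0 c ht) (Helper78.MEI.inv_sqrt_le t)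
          (inv_nonneg.2 (Real.sqrt_nonneg _)) hS
      · rw [indicator_of_notMem ht]
        positivity⟩
  | .em, _, _, _, _ => ⟨0, fun _ => le_rfl⟩
  | .tp, _, _, _, _ => ⟨0, fun _ => le_rfl⟩
  | .sx a l r, x0, x1, y0, y1 => by
    obtain ⟨C1, h1⟩ := val_bd rows h0 l x0 a y0 y1
    obtain ⟨C2, h2⟩ := val_bd rows h0 r a x1 y0 y1
    exact ⟨C1 + C2, fun t => add_le_add (h1 t) (h2 t)⟩
  | .sy b l r, x0, x1, y0, y1 => by
    obtain ⟨C1, h1⟩ := val_bd rows h0 l x0 x1 y0 b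
    obtain ⟨C2, h2⟩ := val_bd rows h0 r x0 x1 b y1
    exact ⟨C1 + C2, fun t => add_le_add (h1 t) (h2 t)⟩

/-- integrability in a chart -/
theorem val_on (rows : List Row) {lam : ℕ → ℝ} (h0 : ∀ i, 0 ≤ lam i) (T : Tr) (x0 x1 y0 y1 : ℕ)
    {e : ℝ × ℝ → ℝ × ℝ} (he : Measurable e) :
    IntegrableOn (fun t => T.val rows lam x0 x1 y0 y1 (e t) * M3 t) Dl := by
  obtain ⟨C, hC⟩ := val_bd rows h0 T x0 x1 y0 y1
  refine Helper78.MEI.on_Dl (C := C)
    ((val_meas rows lam T x0 x1 y0 y1).comp he).aestronglyMeasurable fun t _ => ?_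
  rw [abs_of_nonneg (val_nonneg rows h0 _ _ _ _ _ _)]
  exact hC _

/-! ### The bound of the weight on a box -/

theorem bk_iff {x0 x1 y0 y1 : ℕ} {c : Lf} (h : bk x0 x1 y0 y1 c = true) :
    x0 < x1 ∧ y0 < y1 ∧ x1 + y1 < U ∧ 0 < c.m0 ∧
      ((2 * x1 + y1 ≤ U ∧ x1 + 2 * y1 ≤ U ∧
        c.m0 * c.m0 + U * x1 + U * y1 ≤ U * U + x1 * x1 + y1 * y1 + x1 * y1) ∨
        c.m0 * c.m0 + U * x1 + U * y1 ≤ U * U + x0 * x0 + y0 * y0 + x0 * y0 ∨
        3 * (c.m0 * c.m0) ≤ 2 * (U * U)) ∧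
      U * (3 * (x1 * x1) + 2 * (x1 * y1) + 3 * (y1 * y1)) ≤
        c.o * ((2 * U - x1 - y1) * (2 * U - x1 - y1)) ∧
      U * U * (U * U) * U ≤ c.M * (c.m0 * c.m0 * (c.m0 * c.m0)) := by
  unfold bk at h
  simp only [Bool.and_eq_true, Bool.or_eq_true, Nat.ble_eq, Nat.blt_eq] at h
  obtain ⟨⟨⟨⟨⟨⟨⟨⟨⟨⟨h1, h2⟩, h3⟩, h4⟩, _⟩, _⟩, _⟩, _⟩, h5⟩, h6⟩, h7⟩ := h
  refine ⟨h1, h2, h3, h4, ?_, h6, h7⟩
  rcases h5 with (h5 | h5) | h5
  · exact Or.inl ⟨h5.1.1, h5.1.2, h5.2⟩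
  · exact Or.inr (Or.inl h5)
  · exact Or.inr (Or.inr h5)

/-- the lower bound of `m` -/
theorem bk_m0 {x0 x1 y0 y1 : ℕ} {c : Lf} (h : bk x0 x1 y0 y1 c = true) {x y m : ℝ}
    (hI : In x0 x1 y0 y1 x y) (hm : m ^ 2 = mtx x y) (hm0 : 0 ≤ m) : (c.m0 : ℝ) / U ≤ m := by
  obtain ⟨h1, h2, h3, h4, h5, h6, _⟩ := bk_iff h
  have g : Helper60.R7.mck x0 x1 y0 y1 ⟨c.m0, U, c.o, U ^ 4, [], [], []⟩ = true := by
    unfold Helper60.R7.mck
    simp only [Bool.and_eq_true, Bool.or_eq_true, Nat.ble_eq, Nat.blt_eq]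
    have a1 : x0 * x0 + x0 * y0 ≤ U * x0 := by
      rw [← Nat.mul_add, Nat.mul_comm U]
      exact Nat.mul_le_mul_left _ (by omega)
    have a2 : y0 * y0 ≤ U * y0 := Nat.mul_le_mul_right _ (by omega)
    have a3 : 1 ≤ c.m0 * c.m0 * c.m0 := Nat.succ_le_of_lt (by positivity)
    refine ⟨⟨⟨⟨⟨⟨h3, h4⟩, le_rfl⟩, by omega⟩, ?_⟩, h6⟩, Nat.le_mul_of_pos_right _ a3⟩
    rcases h5 with h5 | h5 | h5
    · exact Or.inl (Or.inl ⟨⟨h5.1, h5.2.1⟩, h5.2.2⟩)
    · exact Or.inl (Or.inr h5)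
    · exact Or.inr h5
  exact Helper60.R7.mck_m0 g hI hm hm0

theorem M4_box {x0 x1 y0 y1 : ℕ} {c : Lf} (h : bk x0 x1 y0 y1 c = true) {t : ℝ × ℝ}
    (hI : In x0 x1 y0 y1 t.1 t.2) : (√(mt t))⁻¹ * M3 t ≤ (c.M : ℝ) / U := by
  have hU := U_pos
  obtain ⟨_, _, _, h2, _, _, h7⟩ := bk_iff h
  have hs : 0 < √(mt t) := Real.sqrt_pos.2 mt_pos
  have hsq := Real.sq_sqrt (mt_pos (t := t)).le
  have k := bk_m0 h hI (m := √(mt t)) (by rw [hsq, mt_mtx]) hs.le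
  have hm0 : 0 < (c.m0 : ℝ) := by exact_mod_cast h2
  have hm0' : 0 < (c.m0 : ℝ) / U := div_pos hm0 hU
  have k3 : ((c.m0 : ℝ) / U) ^ 4 ≤ √(mt t) ^ 4 := pow_le_pow_left₀ hm0'.le k 4
  have h8 : ((U * U * (U * U) * U : ℕ) : ℝ) ≤
      ((c.M * (c.m0 * c.m0 * (c.m0 * c.m0)) : ℕ) : ℝ) := by exact_mod_cast h7
  push_cast at h8
  have e0 : (√(mt t))⁻¹ * M3 t = (√(mt t) ^ 4)⁻¹ := by
    unfold M3
    rw [← inv_pow]
    ring
  rw [e0]
  have k4 : (1 : ℝ) ≤ (c.M : ℝ) / U * ((c.m0 : ℝ) / U) ^ 4 := by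
    have e : (c.M : ℝ) / U * ((c.m0 : ℝ) / U) ^ 4 =
        ((c.M : ℝ) * (c.m0 * c.m0 * (c.m0 * c.m0))) / ((U : ℝ) * U * (U * U) * U) := by
      field_simp
    rw [e, le_div_iff₀ (by positivity), one_mul]
    exact h8
  have k5 : (1 : ℝ) ≤ (c.M : ℝ) / U * √(mt t) ^ 4 :=
    k4.trans (mul_le_mul_of_nonneg_left k3 (by positivity))
  rw [inv_le_iff_one_le_mul₀ (by positivity)]
  exact k5

/-! ### The integral of the bilinear function -/

theorem int_pos {a0 a1 : ℕ} (h : a0 < a1) :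
    ∫ z in Icc ((a0 : ℝ) / U) ((a1 : ℝ) / U), pos a0 a1 z = ((a1 : ℝ) / U - (a0 : ℝ) / U) / 2 := by
  have hU := U_pos
  have hlt : (a0 : ℝ) / U < (a1 : ℝ) / U := div_lt_div_of_pos_right (by exact_mod_cast h) hU
  obtain ⟨a, ha⟩ : ∃ a, a = (a0 : ℝ) / U := ⟨_, rfl⟩
  obtain ⟨b, hb⟩ : ∃ a, a = (a1 : ℝ) / U := ⟨_, rfl⟩
  unfold pos
  rw [← ha, ← hb] at hlt ⊢
  have hne : b - a ≠ 0 := by linarith
  rw [integral_Icc_eq_integral_Ioc, ← intervalIntegral.integral_of_le hlt.le,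
    intervalIntegral.integral_div, intervalIntegral.integral_sub (by simp) (by simp)]
  rw [integral_id, intervalIntegral.integral_const, smul_eq_mul]
  field_simp
  ring

theorem int_pos' {a0 a1 : ℕ} (h : a0 < a1) :
    ∫ z in Icc ((a0 : ℝ) / U) ((a1 : ℝ) / U), (1 - pos a0 a1 z) =
      ((a1 : ℝ) / U - (a0 : ℝ) / U) / 2 := by
  have hU := U_pos
  have hlt : (a0 : ℝ) / U < (a1 : ℝ) / U := div_lt_div_of_pos_right (by exact_mod_cast h) hU
  rw [integral_sub (by simp) ((pos_cont a0 a1).continuousOn.integrableOn_compact isCompact_Icc),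
    int_pos h, setIntegral_const, smul_eq_mul]
  rw [Measure.real, Real.volume_Icc, ENNReal.toReal_ofReal (by linarith)]
  ring

/-- a product term -/
theorem int_term {x0 x1 y0 y1 : ℕ} (f g : ℝ → ℝ) (o : ℝ) {A B : ℝ}
    (hf : ∫ z in Icc ((x0 : ℝ) / U) ((x1 : ℝ) / U), f z = A)
    (hg : ∫ z in Icc ((y0 : ℝ) / U) ((y1 : ℝ) / U), g z = B) :
    ∫ t in rc x0 x1 y0 y1, f t.1 * g t.2 * o = A * B * o := by
  rw [integral_mul_const]
  unfold rc
  rw [Measure.volume_eq_prod, setIntegral_prod_mul, hf, hg]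

theorem int_Bf {rows : List Row} {lam : ℕ → ℝ} {x0 x1 y0 y1 : ℕ} {c : Lf} (hx : x0 < x1)
    (hy : y0 < y1) : ∫ t in rc x0 x1 y0 y1, Bf rows lam x0 x1 y0 y1 c t =
      (sO rows lam c.o00 + sO rows lam c.o01 + sO rows lam c.o10 + sO rows lam c.o11) / 4 *
        (((x1 : ℝ) / U - (x0 : ℝ) / U) * ((y1 : ℝ) / U - (y0 : ℝ) / U)) := by
  have hK : IsCompact (rc x0 x1 y0 y1) := isCompact_Icc.prod isCompact_Icc
  have h1 : Continuous fun t : ℝ × ℝ => pos x0 x1 t.1 := (pos_cont x0 x1).comp continuous_fst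
  have h2 : Continuous fun t : ℝ × ℝ => pos y0 y1 t.2 := (pos_cont y0 y1).comp continuous_snd
  have e1 : Continuous fun t : ℝ × ℝ => 1 - pos x0 x1 t.1 := continuous_const.sub h1
  have e2 : Continuous fun t : ℝ × ℝ => 1 - pos y0 y1 t.2 := continuous_const.sub h2
  have i : ∀ (f : ℝ × ℝ → ℝ), Continuous f → IntegrableOn f (rc x0 x1 y0 y1) := fun f hf =>
    hf.continuousOn.integrableOn_compact hK
  have t1 := int_term (x0 := x0) (x1 := x1) (y0 := y0) (y1 := y1) (fun z => 1 - pos x0 x1 z)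
    (fun z => 1 - pos y0 y1 z) (sO rows lam c.o00) (int_pos' hx) (int_pos' hy)
  have t2 := int_term (x0 := x0) (x1 := x1) (y0 := y0) (y1 := y1) (fun z => 1 - pos x0 x1 z)
    (fun z => pos y0 y1 z) (sO rows lam c.o01) (int_pos' hx) (int_pos hy)
  have t3 := int_term (x0 := x0) (x1 := x1) (y0 := y0) (y1 := y1) (fun z => pos x0 x1 z)
    (fun z => 1 - pos y0 y1 z) (sO rows lam c.o10) (int_pos hx) (int_pos' hy)
  have t4 := int_term (x0 := x0) (x1 := x1) (y0 := y0) (y1 := y1) (fun z => pos x0 x1 z)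
    (fun z => pos y0 y1 z) (sO rows lam c.o11) (int_pos hx) (int_pos hy)
  have c1 : IntegrableOn (fun t : ℝ × ℝ => (1 - pos x0 x1 t.1) * (1 - pos y0 y1 t.2) *
      sO rows lam c.o00) (rc x0 x1 y0 y1) := i _ ((e1.mul e2).mul continuous_const)
  have c2 : IntegrableOn (fun t : ℝ × ℝ => (1 - pos x0 x1 t.1) * pos y0 y1 t.2 *
      sO rows lam c.o01) (rc x0 x1 y0 y1) := i _ ((e1.mul h2).mul continuous_const)
  have c3 : IntegrableOn (fun t : ℝ × ℝ => pos x0 x1 t.1 * (1 - pos y0 y1 t.2) *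
      sO rows lam c.o10) (rc x0 x1 y0 y1) := i _ ((h1.mul e2).mul continuous_const)
  have c4 : IntegrableOn (fun t : ℝ × ℝ => pos x0 x1 t.1 * pos y0 y1 t.2 *
      sO rows lam c.o11) (rc x0 x1 y0 y1) := i _ ((h1.mul h2).mul continuous_const)
  have c12 : IntegrableOn (fun t : ℝ × ℝ => (1 - pos x0 x1 t.1) * (1 - pos y0 y1 t.2) *
      sO rows lam c.o00 + (1 - pos x0 x1 t.1) * pos y0 y1 t.2 * sO rows lam c.o01)
      (rc x0 x1 y0 y1) := c1.add c2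
  have c123 : IntegrableOn (fun t : ℝ × ℝ => (1 - pos x0 x1 t.1) * (1 - pos y0 y1 t.2) *
      sO rows lam c.o00 + (1 - pos x0 x1 t.1) * pos y0 y1 t.2 * sO rows lam c.o01 +
      pos x0 x1 t.1 * (1 - pos y0 y1 t.2) * sO rows lam c.o10) (rc x0 x1 y0 y1) := c12.add c3
  show ∫ t in rc x0 x1 y0 y1, ((1 - pos x0 x1 t.1) * (1 - pos y0 y1 t.2) * sO rows lam c.o00 +
    (1 - pos x0 x1 t.1) * pos y0 y1 t.2 * sO rows lam c.o01 +
    pos x0 x1 t.1 * (1 - pos y0 y1 t.2) * sO rows lam c.o10 +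
    pos x0 x1 t.1 * pos y0 y1 t.2 * sO rows lam c.o11) = _
  rw [integral_add c123 c4, integral_add c12 c3, integral_add c1 c2, t1, t2, t3, t4]
  ring

/-- **the integral of a leaf** -/
theorem leaf_int {rows : List Row} {lam : ℕ → ℝ} (h0 : ∀ i, 0 ≤ lam i) {x0 x1 y0 y1 : ℕ} {c : Lf}
    (h : bk x0 x1 y0 y1 c = true) :
    ∫ t in Dl, (rc x0 x1 y0 y1).indicator
        (fun t => Bf rows lam x0 x1 y0 y1 c t / √(mt t)) t * M3 t ≤
      (sO rows lam c.o00 + sO rows lam c.o01 + sO rows lam c.o10 + sO rows lam c.o11) / 4 *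
        (((x1 : ℝ) / U - (x0 : ℝ) / U) * ((y1 : ℝ) / U - (y0 : ℝ) / U)) * ((c.M : ℝ) / U) := by
  have hU := U_pos
  obtain ⟨hx, hy, _⟩ := bk_iff h
  have hM' : (0 : ℝ) ≤ (c.M : ℝ) / U := by positivity
  have hK : IsCompact (rc x0 x1 y0 y1) := isCompact_Icc.prod isCompact_Icc
  have hiB : IntegrableOn (Bf rows lam x0 x1 y0 y1 c) (rc x0 x1 y0 y1) :=
    (Bf_cont rows lam x0 x1 y0 y1 c).continuousOn.integrableOn_compact hK
  have hi1 : IntegrableOn (fun t => (rc x0 x1 y0 y1).indicator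
      (fun t => Bf rows lam x0 x1 y0 y1 c t / √(mt t)) t * M3 t) Dl :=
    val_on rows h0 (.lf c) x0 x1 y0 y1 measurable_id
  have hi2 : IntegrableOn (fun t => (rc x0 x1 y0 y1).indicator
      (fun t => Bf rows lam x0 x1 y0 y1 c t * ((c.M : ℝ) / U)) t) Dl := by
    have q : Integrable ((rc x0 x1 y0 y1).indicator
        (fun t => Bf rows lam x0 x1 y0 y1 c t * ((c.M : ℝ) / U))) :=
      (integrable_indicator_iff (rc_meas _ _ _ _)).2 (hiB.mul_const _)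
    exact q.integrableOn
  have hle : ∀ t ∈ Dl, (rc x0 x1 y0 y1).indicator
        (fun t => Bf rows lam x0 x1 y0 y1 c t / √(mt t)) t * M3 t ≤
      (rc x0 x1 y0 y1).indicator
        (fun t => Bf rows lam x0 x1 y0 y1 c t * ((c.M : ℝ) / U)) t := by
    intro t _
    by_cases ht : t ∈ rc x0 x1 y0 y1
    · rw [indicator_of_mem ht, indicator_of_mem ht, div_eq_mul_inv, mul_assoc]
      exact mul_le_mul_of_nonneg_left (M4_box h (mem_rc.1 ht)) (Bf_nonneg rows h0 c ht)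
    · rw [indicator_of_notMem ht, indicator_of_notMem ht, zero_mul]
  calc ∫ t in Dl, (rc x0 x1 y0 y1).indicator
        (fun t => Bf rows lam x0 x1 y0 y1 c t / √(mt t)) t * M3 t ≤
        ∫ t in Dl, (rc x0 x1 y0 y1).indicator
          (fun t => Bf rows lam x0 x1 y0 y1 c t * ((c.M : ℝ) / U)) t :=
        setIntegral_mono_on hi1 hi2 Helper33.MEI.Dl_meas hle
    _ = ∫ t in Dl ∩ rc x0 x1 y0 y1, Bf rows lam x0 x1 y0 y1 c t * ((c.M : ℝ) / U) := by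
        rw [setIntegral_indicator (rc_meas _ _ _ _)]
    _ ≤ ∫ t in rc x0 x1 y0 y1, Bf rows lam x0 x1 y0 y1 c t * ((c.M : ℝ) / U) := by
        refine setIntegral_mono_set (hiB.mul_const _) ?_ (inter_subset_right).eventuallyLE
        filter_upwards [ae_restrict_mem (rc_meas x0 x1 y0 y1)] with t ht
        exact mul_nonneg (Bf_nonneg rows h0 c ht) hM'
    _ = _ := by
        rw [integral_mul_const, int_Bf hx hy]

/-- **the integral of the function of a tree** -/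
theorem val_int {rows : List Row} {lam : ℕ → ℝ} (h0 : ∀ i, 0 ≤ lam i) {A c0 c1 nl ne h : ℕ} :
    ∀ (T : Tr) (x0 x1 y0 y1 : ℕ), T.ck rows A c0 c1 nl ne h x0 x1 y0 y1 = true →
      ∫ t in Dl, T.val rows lam x0 x1 y0 y1 t * M3 t ≤
        ∑ i ∈ Finset.range rows.length, lam i * (((T.wt i x0 x1 y0 y1 : ℕ) : ℝ) / (4 * U ^ 4))
  | .lf c, x0, x1, y0, y1, hk => by
    have hU := U_pos
    have hb : bk x0 x1 y0 y1 c = true := by
      simp only [Tr.ck, lk8, Bool.and_eq_true] at hk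
      exact hk.1
    obtain ⟨hx, hy, _⟩ := bk_iff hb
    refine (leaf_int h0 hb).trans (le_of_eq ?_)
    unfold sO
    rw [← Finset.sum_add_distrib, ← Finset.sum_add_distrib, ← Finset.sum_add_distrib,
      Finset.sum_div, Finset.sum_mul, Finset.sum_mul]
    refine Finset.sum_congr rfl fun i _ => ?_
    have e : (((Tr.lf c).wt i x0 x1 y0 y1 : ℕ) : ℝ) =
        ((((c.o00.getD i 0 : ℕ) : ℝ) + ((c.o01.getD i 0 : ℕ) : ℝ) + ((c.o10.getD i 0 : ℕ) : ℝ) +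
          ((c.o11.getD i 0 : ℕ) : ℝ)) * (((x1 : ℝ) - x0) * ((y1 : ℝ) - y0)) * c.M) := by
      show (((c.o00.getD i 0 + c.o01.getD i 0 + c.o10.getD i 0 + c.o11.getD i 0) *
        ((x1 - x0) * (y1 - y0)) * c.M : ℕ) : ℝ) = _
      rw [Nat.cast_mul, Nat.cast_mul, Nat.cast_mul, Nat.cast_sub hx.le, Nat.cast_sub hy.le,
        Nat.cast_add, Nat.cast_add, Nat.cast_add]
    rw [e]
    field_simp
  | .em, _, _, _, _, _ => by
    show ∫ t in Dl, (0 : ℝ) * M3 t ≤ _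
    simp only [zero_mul, integral_zero]
    refine Finset.sum_nonneg fun i _ => mul_nonneg (h0 i) (by positivity)
  | .tp, _, _, _, _, _ => by
    show ∫ t in Dl, (0 : ℝ) * M3 t ≤ _
    simp only [zero_mul, integral_zero]
    refine Finset.sum_nonneg fun i _ => mul_nonneg (h0 i) (by positivity)
  | .sx a l r, x0, x1, y0, y1, hk => by
    simp only [Tr.ck, Bool.and_eq_true] at hk
    have k1 := val_int h0 l x0 a y0 y1 hk.1
    have k2 := val_int h0 r a x1 y0 y1 hk.2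
    show ∫ t in Dl, (Tr.val rows lam l x0 a y0 y1 t + Tr.val rows lam r a x1 y0 y1 t) * M3 t ≤ _
    have e : ∀ t, (Tr.val rows lam l x0 a y0 y1 t + Tr.val rows lam r a x1 y0 y1 t) * M3 t =
        Tr.val rows lam l x0 a y0 y1 t * M3 t + Tr.val rows lam r a x1 y0 y1 t * M3 t :=
      fun t => by ring
    simp only [e]
    have i1 : IntegrableOn (fun t => Tr.val rows lam l x0 a y0 y1 t * M3 t) Dl :=
      val_on rows h0 l x0 a y0 y1 measurable_id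
    have i2 : IntegrableOn (fun t => Tr.val rows lam r a x1 y0 y1 t * M3 t) Dl :=
      val_on rows h0 r a x1 y0 y1 measurable_id
    rw [integral_add i1 i2]
    refine (add_le_add k1 k2).trans (le_of_eq ?_)
    rw [← Finset.sum_add_distrib]
    refine Finset.sum_congr rfl fun i _ => ?_
    have e : (((Tr.sx a l r).wt i x0 x1 y0 y1 : ℕ) : ℝ) =
        ((l.wt i x0 a y0 y1 : ℕ) : ℝ) + ((r.wt i a x1 y0 y1 : ℕ) : ℝ) := by
      show ((l.wt i x0 a y0 y1 + r.wt i a x1 y0 y1 : ℕ) : ℝ) = _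
      rw [Nat.cast_add]
    rw [e]
    ring
  | .sy b l r, x0, x1, y0, y1, hk => by
    simp only [Tr.ck, Bool.and_eq_true] at hk
    have k1 := val_int h0 l x0 x1 y0 b hk.1
    have k2 := val_int h0 r x0 x1 b y1 hk.2
    show ∫ t in Dl, (Tr.val rows lam l x0 x1 y0 b t + Tr.val rows lam r x0 x1 b y1 t) * M3 t ≤ _
    have e : ∀ t, (Tr.val rows lam l x0 x1 y0 b t + Tr.val rows lam r x0 x1 b y1 t) * M3 t =
        Tr.val rows lam l x0 x1 y0 b t * M3 t + Tr.val rows lam r x0 x1 b y1 t * M3 t :=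
      fun t => by ring
    simp only [e]
    have i1 : IntegrableOn (fun t => Tr.val rows lam l x0 x1 y0 b t * M3 t) Dl :=
      val_on rows h0 l x0 x1 y0 b measurable_id
    have i2 : IntegrableOn (fun t => Tr.val rows lam r x0 x1 b y1 t * M3 t) Dl :=
      val_on rows h0 r x0 x1 b y1 measurable_id
    rw [integral_add i1 i2]
    refine (add_le_add k1 k2).trans (le_of_eq ?_)
    rw [← Finset.sum_add_distrib]
    refine Finset.sum_congr rfl fun i _ => ?_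
    have e : (((Tr.sy b l r).wt i x0 x1 y0 y1 : ℕ) : ℝ) =
        ((l.wt i x0 x1 y0 b : ℕ) : ℝ) + ((r.wt i x0 x1 b y1 : ℕ) : ℝ) := by
      show ((l.wt i x0 x1 y0 b + r.wt i x0 x1 b y1 : ℕ) : ℝ) = _
      rw [Nat.cast_add]
    rw [e]
    ring

end Helper45.R8I
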