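import Pool.Agent.Helper31.SR.Arc
import Pool.Agent.Helper82.M2.Core2

/-!
# Project MEI (M2), w-term: the mass of an arc against its columns

The own coordinate of a point of `K` outside of the ball of the vertex `i` is at most `.55 s`, so
the columns of an arc of the vertex `i` carry the share `1 - .55 s` of its mass.
-/

set_option autoImplicit false

namespace Helper45.AmR

open Set Metric MeasureTheory Helper80.CW Helper82.CW Helper14.CW Helper93.MEI Helper82.M2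
open Helper14.MEI2 Pool.Agent.Helper52.MEI Pool.Agent.Helper73.MEI Helper37.MEI Helper41.MEI
open Pool.Agent.Helper31.SR

/-- outside of the ball of the vertex, the own coordinate is small -/
theorem own_small {b0 b1 b2 b3 s : ℝ} (hs0 : 0 ≤ s) (hs : s ≤ 1 / 10)
    (hsum : b0 + b1 + b2 + b3 = 1)
    (h0 : 0 < 1 / 2 * (b0 ^ 2 + b1 ^ 2 + b2 ^ 2 + b3 ^ 2) - b0 - 1 / 2)
    (h1 : 1 / 2 * (b0 ^ 2 + b1 ^ 2 + b2 ^ 2 + b3 ^ 2) - b1 - 1 / 2 ≤ s)
    (h2 : 1 / 2 * (b0 ^ 2 + b1 ^ 2 + b2 ^ 2 + b3 ^ 2) - b2 - 1 / 2 ≤ s)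
    (h3 : 1 / 2 * (b0 ^ 2 + b1 ^ 2 + b2 ^ 2 + b3 ^ 2) - b3 - 1 / 2 ≤ s) :
    b0 ≤ 11 / 20 * s := by
  by_contra hb
  have hb' : 0 ≤ b0 - 11 / 20 * s := by
    push Not at hb
    linarith
  obtain ⟨v1, e1⟩ : ∃ v, v = b1 - (b0 - s) := ⟨_, rfl⟩
  obtain ⟨v2, e2⟩ : ∃ v, v = b2 - (b0 - s) := ⟨_, rfl⟩
  obtain ⟨v3, e3⟩ : ∃ v, v = b3 - (b0 - s) := ⟨_, rfl⟩
  have p1 : 0 ≤ v1 := by linarith
  have p2 : 0 ≤ v2 := by linarith
  have p3 : 0 ≤ v3 := by linarith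
  have q1 := mul_nonneg p1 p2
  have q2 := mul_nonneg p1 p3
  have q3 := mul_nonneg p2 p3
  have f1 : b1 = v1 + (b0 - s) := by linarith
  have f2 : b2 = v2 + (b0 - s) := by linarith
  have f3 : b3 = v3 + (b0 - s) := by linarith
  have hV : v1 + v2 + v3 = 1 - 4 * b0 + 3 * s := by linarith
  have hR : 0 ≤ (1 + 3 * s) / 4 - b0 := by linarith
  have P := mul_nonneg hb' hR
  have r1 := mul_nonneg hs0 hb'
  have r2 := mul_nonneg hs0 (sub_nonneg.2 hs)
  have hVV : (v1 + v2 + v3) ^ 2 = (1 - 4 * b0 + 3 * s) ^ 2 := by rw [hV]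
  have hVb : (b0 - s) * (v1 + v2 + v3) = (b0 - s) * (1 - 4 * b0 + 3 * s) := by rw [hV]
  rw [f1, f2, f3] at h0
  linarith

/-- the same at a point of the body -/
theorem bar_small {a : Fin 4 → E3} (g : Gram4 (al a)) {s : ℝ} (hs0 : 0 ≤ s) (hs : s ≤ 1 / 10)
    {x : E3} (hQ : ∀ i, Qv a i x ≤ s) (i : Fin 4) (hi : 0 < Qv a i x) :
    bar a i x ≤ 11 / 20 * s := by
  have hb := bar_sum g x
  have q0 := hQ 0
  have q1 := hQ 1
  have q2 := hQ 2
  have q3 := hQ 3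
  rw [Qv_eq g] at q0 q1 q2 q3 hi
  fin_cases i
  · have hi' : 0 < 1 / 2 * (bar a 0 x ^ 2 + bar a 1 x ^ 2 + bar a 2 x ^ 2 + bar a 3 x ^ 2) -
        bar a 0 x - 1 / 2 := hi
    exact own_small (b0 := bar a 0 x) (b1 := bar a 1 x) (b2 := bar a 2 x)
      (b3 := bar a 3 x) hs0 hs (by linarith) (by linarith) (by linarith) (by linarith)
      (by linarith)
  · have hi' : 0 < 1 / 2 * (bar a 0 x ^ 2 + bar a 1 x ^ 2 + bar a 2 x ^ 2 + bar a 3 x ^ 2) -
        bar a 1 x - 1 / 2 := hi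
    exact own_small (b0 := bar a 1 x) (b1 := bar a 0 x) (b2 := bar a 2 x)
      (b3 := bar a 3 x) hs0 hs (by linarith) (by linarith) (by linarith) (by linarith)
      (by linarith)
  · have hi' : 0 < 1 / 2 * (bar a 0 x ^ 2 + bar a 1 x ^ 2 + bar a 2 x ^ 2 + bar a 3 x ^ 2) -
        bar a 2 x - 1 / 2 := hi
    exact own_small (b0 := bar a 2 x) (b1 := bar a 0 x) (b2 := bar a 1 x)
      (b3 := bar a 3 x) hs0 hs (by linarith) (by linarith) (by linarith) (by linarith)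
      (by linarith)
  · have hi' : 0 < 1 / 2 * (bar a 0 x ^ 2 + bar a 1 x ^ 2 + bar a 2 x ^ 2 + bar a 3 x ^ 2) -
        bar a 3 x - 1 / 2 := hi
    exact own_small (b0 := bar a 3 x) (b1 := bar a 0 x) (b2 := bar a 1 x)
      (b3 := bar a 2 x) hs0 hs (by linarith) (by linarith) (by linarith) (by linarith)
      (by linarith)

section
variable {a : Fin 4 → E3} {K : Set E3} {S : Fin 4 → ℝ} {σ : Measure (E3 × E3)}
  {c : Fin 4 → E3} {l : Fin 3 → Bool → Bool → E3 × E3 → ℝ}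

/-- the own moment of an arc -/
theorem sM_own [IsFiniteMeasure σ] (ha : ∀ i j, i ≠ j → dist (a i) (a j) = 1) (hl : Lok a l)
    (hK : IsCompact K) (hσ : ∀ᵐ z ∂σ, z.1 ∈ K ∧ z.2 ∈ K) (hp : ∀ x ∈ K, Pl a x) {s : ℝ}
    (hs0 : 0 ≤ s) (hs : s ≤ 1 / 10) (hQ : ∀ i, ∀ x ∈ K, Qv a i x ≤ s) (m : Fin 3) (e i : Bool) :
    sM σ a l m e i (vx m e i) ≤ 11 / 20 * s * sm σ a l m e i := by
  obtain ⟨C, hC⟩ := den_bdd ha hl hK hσ hp m e i
  unfold sM sm
  rw [← integral_const_mul]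
  have i1 := (dens_int hK hσ (den_meas hl m e i) (den_nn hl m e i) hC
    ((Helper93.MEI.bar_cont a (vx m e i)).comp continuous_snd)).integrableOn (s := EE a m e)
  have i2 := (dens_int1 (den_meas hl m e i) (den_nn hl m e i) hC).integrableOn (s := EE a m e)
  refine integral_mono_ae i1 (i2.const_mul _) ?_
  filter_upwards [ae_restrict_of_ae hσ] with z hz
  show den a l m e i z * bar a (vx m e i) z.2 ≤ 11 / 20 * s * den a l m e i z
  rcases le_or_gt (Qv a (vx m e i) z.2) 0 with h0 | h0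
  · rw [den_zero m e i h0, zero_mul, mul_zero]
  · have h1 := bar_small (gram_of_dist ha) hs0 hs (fun j => hQ j _ hz.2) _ h0
    have h2 := mul_le_mul_of_nonneg_left h1 (den_nonneg hl m e i z)
    linarith

/-- **the mass of an arc against its columns** -/
theorem am_MA [IsFiniteMeasure σ] (h : CN K σ a c) (v : Viol K a S) (hl : Lok a l)
    (τ : Equiv.Perm (Fin 4)) {s : ℝ} (hS : ∀ i, S i ≤ s) (hs : s ≤ 1 / 10) (p : Fin 3) :
    (1 - 11 / 20 * s) * am σ a l (τ 0) (τ p.succ) ≤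
      MA σ a l τ p 0 + MA σ a l τ p 1 + MA σ a l τ p 2 := by
  have hs0 : 0 ≤ s := (v.nn 0).trans (hS 0)
  have hQ : ∀ i, ∀ x ∈ K, Qv a i x ≤ s := fun i x hx => (v.le i x hx).trans (hS i)
  have hne : τ 0 ≠ τ p.succ := fun h => (Fin.succ_ne_zero p) (τ.injective h).symm
  have hv := idx_vx (τ 0) (τ p.succ) hne
  have h1 := sM_sum h.ha hl h.cpt h.pm.mem h.hp (idx (τ 0) (τ p.succ)).1
    (idx (τ 0) (τ p.succ)).2.1 (idx (τ 0) (τ p.succ)).2.2
  have h2 := sM_own h.ha hl h.cpt h.pm.mem h.hp hs0 hs hQ (idx (τ 0) (τ p.succ)).1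
    (idx (τ 0) (τ p.succ)).2.1 (idx (τ 0) (τ p.succ)).2.2
  rw [hv.1] at h2
  rw [← Equiv.sum_comp τ, Fin.sum_univ_four] at h1
  have k : ∀ k : Fin 4, sM σ a l (idx (τ 0) (τ p.succ)).1 (idx (τ 0) (τ p.succ)).2.1
      (idx (τ 0) (τ p.succ)).2.2 (τ k) ≤ pp (aM σ a l (τ 0) (τ p.succ) (τ k)) := fun k =>
    le_pp _
  have k1 := k 1
  have k2 := k 2
  have k3 := k 3
  show (1 - 11 / 20 * s) * sm σ a l (idx (τ 0) (τ p.succ)).1 (idx (τ 0) (τ p.succ)).2.1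
      (idx (τ 0) (τ p.succ)).2.2 ≤ pp (aM σ a l (τ 0) (τ p.succ) (τ 1)) +
    pp (aM σ a l (τ 0) (τ p.succ) (τ 2)) + pp (aM σ a l (τ 0) (τ p.succ) (τ 3))
  linarith

/-- **the level of an arc**, two columns -/
theorem aE_rho [IsFiniteMeasure σ] (h : CN K σ a c) (v : Viol K a S) (hl : Lok a l)
    (τ : Equiv.Perm (Fin 4)) {s : ℝ} (hS : ∀ i, S i ≤ s) (hs : s ≤ 1 / 10) (p : Fin 3) {ρ : ℝ}
    (hδ : MA σ a l τ p p ≤ 0) (hMρ : ∀ k, k ≠ p → MA σ a l τ p k ≤ ρ) :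
    (1 - 11 / 20 * s) * aE σ a l (τ 0) (τ p.succ) ≤ 2 * S (τ 0) * ρ := by
  have hs0 : 0 ≤ s := (v.nn 0).trans (hS 0)
  have hne : τ 0 ≠ τ p.succ := fun h => (Fin.succ_ne_zero p) (τ.injective h).symm
  have h1 := am_MA h v hl τ hS hs p
  have h2 := aE_le (σ := σ) h.ha hl h.cpt h.pm.mem h.hp hne (S := S (τ 0)) (v.le (τ 0))
  have h3 : MA σ a l τ p 0 + MA σ a l τ p 1 + MA σ a l τ p 2 ≤ 2 * ρ := by
    have m0 := hMρ 0
    have m1 := hMρ 1
    have m2 := hMρ 2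
    fin_cases p
    · have := m1 (by decide)
      have := m2 (by decide)
      simp only [Fin.zero_eta] at *
      linarith
    · have := m0 (by decide)
      have := m2 (by decide)
      simp only [Fin.mk_one] at *
      linarith
    · have := m0 (by decide)
      have := m1 (by decide)
      simp only [Fin.reduceFinMk] at *
      linarith
  have h4 : (0 : ℝ) ≤ 1 - 11 / 20 * s := by linarith
  have h5 := mul_le_mul_of_nonneg_left h2 h4
  have h6 := mul_le_mul_of_nonneg_left (h1.trans h3) (v.nn (τ 0))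
  linarith

end

end Helper45.AmR
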